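import Pool.Agent.H22.VM.Targets

/-!
# CH: the chain of exponents (helper76), for `Pool.Agent.H22.VM`
-/

set_option autoImplicit false

open Finset Filter Topology

namespace Pool.Agent.H76.VM

open Pool.Agent.H22.VM

theorem ch_aux (γ E B A : ℝ) (hγ0 : 0 < γ) (hE : 0 < E) (hB : 0 < B)
    (hA : 1 ≤ A) (hB1 : 1 ≤ B) (hBg : 2 * B ^ γ ≤ B) (hAg : E * B * A ^ γ ≤ A)
    (a : ℕ → ℝ) (K : ℝ) (ha : ∀ j, 1 ≤ a j) (hK : ∀ j, a j ≤ K)
    (hrec : ∀ j, a j ≤ E * 2 ^ (j + 1) * a (j + 1) ^ γ) (hγ1 : γ < 1) : a 0 ≤ A := by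
  have hA0 : 0 < A := by linarith
  have hKpos : 0 < K := lt_of_lt_of_le one_pos ((ha 0).trans (hK 0))
  have hb1 : ∀ j : ℕ, 1 ≤ A * B ^ j := fun j => one_le_mul_of_one_le_of_one_le hA (one_le_pow₀ hB1)
  have key : ∀ n j : ℕ, a j ≤ A * B ^ j * K ^ (γ ^ n) := by
    intro n
    induction n with
    | zero =>
      intro j
      simp only [pow_zero, Real.rpow_one]
      calc a j ≤ K := hK j
        _ = 1 * K := (one_mul K).symm
        _ ≤ A * B ^ j * K := mul_le_mul_of_nonneg_right (hb1 j) hKpos.le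
    | succ n ih =>
      intro j
      have h1 : a (j + 1) ^ γ ≤ (A * B ^ (j + 1) * K ^ (γ ^ n)) ^ γ :=
        Real.rpow_le_rpow (by linarith [ha (j + 1)]) (ih (j + 1)) hγ0.le
      have h2 : (A * B ^ (j + 1) * K ^ (γ ^ n)) ^ γ = A ^ γ * (B ^ γ) ^ (j + 1) * K ^ (γ ^ (n + 1)) := by
        rw [Real.mul_rpow (by positivity) (by positivity), Real.mul_rpow hA0.le (by positivity),
          ← Real.rpow_natCast B (j + 1), ← Real.rpow_mul hB.le, ← Real.rpow_natCast (B ^ γ) (j + 1),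
          ← Real.rpow_mul hB.le, ← Real.rpow_mul hKpos.le, mul_comm ((j + 1 : ℕ) : ℝ) γ, pow_succ]
      have h3 : (2 * B ^ γ) ^ (j + 1) ≤ B ^ (j + 1) := by
        apply pow_le_pow_left₀ (by positivity) hBg
      calc a j ≤ E * 2 ^ (j + 1) * a (j + 1) ^ γ := hrec j
        _ ≤ E * 2 ^ (j + 1) * (A ^ γ * (B ^ γ) ^ (j + 1) * K ^ (γ ^ (n + 1))) := by
            rw [← h2]; exact mul_le_mul_of_nonneg_left h1 (by positivity)
        _ = E * A ^ γ * (2 * B ^ γ) ^ (j + 1) * K ^ (γ ^ (n + 1)) := by rw [mul_pow]; ring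
        _ ≤ E * A ^ γ * B ^ (j + 1) * K ^ (γ ^ (n + 1)) := by
            apply mul_le_mul_of_nonneg_right _ (by positivity)
            exact mul_le_mul_of_nonneg_left h3 (by positivity)
        _ = E * B * A ^ γ * B ^ j * K ^ (γ ^ (n + 1)) := by rw [pow_succ]; ring
        _ ≤ A * B ^ j * K ^ (γ ^ (n + 1)) := by
            apply mul_le_mul_of_nonneg_right _ (by positivity)
            exact mul_le_mul_of_nonneg_right hAg (by positivity)
  have hlim : Tendsto (fun n : ℕ => A * B ^ 0 * K ^ (γ ^ n)) atTop (𝓝 (A * B ^ 0 * K ^ (0 : ℝ))) := by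
    apply Tendsto.const_mul
    have h := tendsto_pow_atTop_nhds_zero_of_lt_one hγ0.le hγ1
    exact (Real.continuous_const_rpow hKpos.ne').continuousAt.tendsto.comp h
  have := ge_of_tendsto' hlim (fun n => key n 0)
  simpa using this

theorem ch : T_CH := by
  intro s₀ s₁ C γ hs hC hγ0 hγ1
  have h1g : 0 < 1 - γ := by linarith
  obtain ⟨d, hd⟩ : ∃ d, d = s₁ - s₀ := ⟨_, rfl⟩
  have hd0 : 0 < d := by rw [hd]; linarith
  obtain ⟨D, hD⟩ : ∃ D, D = max 1 (1 / d) := ⟨_, rfl⟩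
  have hD1 : 1 ≤ D := by rw [hD]; exact le_max_left _ _
  have hDd : 1 / d ≤ D := by rw [hD]; exact le_max_right _ _
  obtain ⟨E, hE⟩ : ∃ E, E = (1 + C) * D := ⟨_, rfl⟩
  have hE1 : 1 ≤ E := by rw [hE]; nlinarith
  obtain ⟨B, hB⟩ : ∃ B : ℝ, B = 2 ^ (1 / (1 - γ)) := ⟨_, rfl⟩
  have hB1 : 1 ≤ B := by rw [hB]; exact Real.one_le_rpow (by norm_num) (by positivity)
  obtain ⟨A, hA⟩ : ∃ A : ℝ, A = (E * B) ^ (1 / (1 - γ)) := ⟨_, rfl⟩
  have hEB : 1 ≤ E * B := one_le_mul_of_one_le_of_one_le hE1 hB1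
  have hA1 : 1 ≤ A := by rw [hA]; exact Real.one_le_rpow hEB (by positivity)
  have root : ∀ x y : ℝ, 1 ≤ x → y = x ^ (1 / (1 - γ)) → x * y ^ γ = y := by
    intro x y hx hy
    have hx0 : 0 < x := by linarith
    rw [hy, ← Real.rpow_mul hx0.le]
    nth_rewrite 1 [← Real.rpow_one x]
    rw [← Real.rpow_add hx0]
    congr 1
    field_simp
    ring
  have hBg : 2 * B ^ γ ≤ B := (root 2 B (by norm_num) hB).le
  have hAg : E * B * A ^ γ ≤ A := (root (E * B) A hEB hA).le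
  refine ⟨A, ?_⟩
  rintro Λ hΛ ⟨K, hK⟩ hrec
  obtain ⟨s, hsj⟩ : ∃ s : ℕ → ℝ, ∀ j, s j = s₁ - d / 2 ^ j := ⟨_, fun j => rfl⟩
  have hs0 : s 0 = s₀ := by rw [hsj, hd]; simp
  have hdj : ∀ j : ℕ, d / 2 ^ j ≤ d := fun j =>
    div_le_self hd0.le (one_le_pow₀ (by norm_num))
  have hsl : ∀ j, s₀ ≤ s j := by
    intro j; rw [hsj]; have := hdj j; linarith
  have hsu : ∀ j, s j ≤ s₁ := by
    intro j; rw [hsj]; have : 0 < d / 2 ^ j := by positivity
    linarith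
  have hgap : ∀ j, s (j + 1) - s j = d / 2 ^ (j + 1) := by
    intro j; rw [hsj, hsj, pow_succ]; field_simp; ring
  have main := ch_aux γ E B A hγ0 (by linarith) (by linarith) hA1 hB1 hBg hAg
    (fun j => 1 + Λ (s j)) (1 + K) (fun j => by linarith [hΛ (s j)])
    (fun j => by linarith [hK (s j) (hsl j) (hsu j)]) ?_ hγ1
  · simp only [hs0] at main; linarith
  · intro j
    have hlt : s j < s (j + 1) := by
      have := hgap j
      have h2 : 0 < d / 2 ^ (j + 1) := by positivity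
      linarith
    have h1 := hrec (s j) (s (j + 1)) (hsl j) hlt (hsu (j + 1))
    rw [hgap j] at h1
    have hL := hΛ (s (j + 1))
    have h2p : (1 : ℝ) ≤ 2 ^ (j + 1) := one_le_pow₀ (by norm_num)
    have hX1 : 1 ≤ D * 2 ^ (j + 1) := one_le_mul_of_one_le_of_one_le hD1 h2p
    have h2 : 1 + Λ (s (j + 1)) / (d / 2 ^ (j + 1)) ≤ D * 2 ^ (j + 1) * (1 + Λ (s (j + 1))) := by
      have : Λ (s (j + 1)) / (d / 2 ^ (j + 1)) = (1 / d) * 2 ^ (j + 1) * Λ (s (j + 1)) := by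
        field_simp
      rw [this]
      have h3 : (1 / d) * 2 ^ (j + 1) * Λ (s (j + 1)) ≤ D * 2 ^ (j + 1) * Λ (s (j + 1)) := by
        apply mul_le_mul_of_nonneg_right _ hL
        exact mul_le_mul_of_nonneg_right hDd (by positivity)
      nlinarith
    have h0 : 0 ≤ 1 + Λ (s (j + 1)) / (d / 2 ^ (j + 1)) := by positivity
    have h3 : (1 + Λ (s (j + 1)) / (d / 2 ^ (j + 1))) ^ γ ≤
        (D * 2 ^ (j + 1)) * (1 + Λ (s (j + 1))) ^ γ := by
      calc (1 + Λ (s (j + 1)) / (d / 2 ^ (j + 1))) ^ γ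
          ≤ (D * 2 ^ (j + 1) * (1 + Λ (s (j + 1)))) ^ γ := Real.rpow_le_rpow h0 h2 hγ0.le
        _ = (D * 2 ^ (j + 1)) ^ γ * (1 + Λ (s (j + 1))) ^ γ :=
            Real.mul_rpow (by positivity) (by positivity)
        _ ≤ (D * 2 ^ (j + 1)) * (1 + Λ (s (j + 1))) ^ γ := by
            apply mul_le_mul_of_nonneg_right _ (by positivity)
            calc (D * 2 ^ (j + 1)) ^ γ ≤ (D * 2 ^ (j + 1)) ^ (1 : ℝ) :=
                  Real.rpow_le_rpow_of_exponent_le hX1 hγ1.le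
              _ = _ := Real.rpow_one _
    have h4 : 1 ≤ (D * 2 ^ (j + 1)) * (1 + Λ (s (j + 1))) ^ γ :=
      one_le_mul_of_one_le_of_one_le hX1 (Real.one_le_rpow (by linarith) hγ0.le)
    calc 1 + Λ (s j) ≤ 1 + C * (1 + Λ (s (j + 1)) / (d / 2 ^ (j + 1))) ^ γ := by linarith
      _ ≤ (D * 2 ^ (j + 1)) * (1 + Λ (s (j + 1))) ^ γ +
          C * ((D * 2 ^ (j + 1)) * (1 + Λ (s (j + 1))) ^ γ) := by
          have := mul_le_mul_of_nonneg_left h3 hC
          linarith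
      _ = E * 2 ^ (j + 1) * (1 + Λ (s (j + 1))) ^ γ := by rw [hE]; ring

end Pool.Agent.H76.VM
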